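import Pool.Agent.J4H38.GS.Stm5
import Pool.Agent.J4H38.GS.L3

/-! Project GS5, piece EZ: the partial sums of the periodic zeta function. -/

set_option autoImplicit false

open MeasureTheory Set Filter Topology

namespace Pool.Agent.J4H4.GS

open Pool.Agent.J4H38.GS Pool.Agent.J4H38.GS.L3

/-- Abel summation for bounded partial sums -/
theorem abel {f : ℕ → ℂ} (hf : f 0 = 0) {s : ℂ} (hs : 0 < s.re)
    (hO : (fun n ↦ ∑ k ∈ Finset.Icc 1 n, f k) =O[atTop] fun n ↦ (n : ℝ) ^ (0 : ℝ)) :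
    Tendsto (fun n : ℕ => ∑ k ∈ Finset.Icc 0 n, ((k : ℝ) : ℂ) ^ (-s) * f k) atTop
      (𝓝 (s * ∫ t in Set.Ioi (1 : ℝ), (∑ k ∈ Finset.Icc 1 ⌊t⌋₊, f k) * t ^ (-(s + 1)))) := by
  have h₁ : (-s - 1).re + (0 : ℝ) < -1 := by
    simp only [Complex.sub_re, Complex.neg_re, Complex.one_re]
    linarith
  have h₂ : s ≠ 0 := by
    rintro rfl
    simp at hs
  have h₃ (t : ℝ) (ht : t ∈ Set.Ici (1 : ℝ)) : DifferentiableAt ℝ (fun x : ℝ ↦ (x : ℂ) ^ (-s)) t :=
    differentiableAt_id.ofReal_cpow_const (zero_lt_one.trans_le ht).ne' (neg_ne_zero.mpr h₂)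
  have h₄ : ∀ n, ∑ k ∈ Finset.Icc 0 n, f k = ∑ k ∈ Finset.Icc 1 n, f k := fun n ↦ by
    rw [← Finset.insert_Icc_add_one_left_eq_Icc n.zero_le, Finset.sum_insert (by simp), hf, zero_add, zero_add]
  simp_rw [← h₄] at hO
  rw [← integral_const_mul]
  convert!
    tendsto_sum_mul_atTop_nhds_one_sub_integral₀ (f := fun x ↦ (x : ℂ) ^ (-s)) (l := 0) f hf h₃ ?_
      ?_ ?_ (integrableAtFilter_rpow_atTop_iff.mpr h₁)
  · rw [zero_sub, ← integral_neg]
    refine setIntegral_congr_fun measurableSet_Ioi fun t ht ↦ ?_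
    rw [Complex.deriv_ofReal_cpow_const (zero_lt_one.trans ht).ne', h₄]
    · ring_nf
    · exact neg_ne_zero.mpr h₂
  · refine (Iff.mpr integrableOn_Ici_iff_integrableOn_Ioi <|
      integrableOn_Ioi_deriv_ofReal_cpow zero_lt_one
        (by simpa using! hs)).locallyIntegrableOn
  · have hlim : Tendsto (fun n : ℕ ↦ (n : ℝ) ^ (-(s.re - 0))) atTop (𝓝 0) :=
      (tendsto_rpow_neg_atTop (by rwa [sub_pos])).comp tendsto_natCast_atTop_atTop
    refine (Asymptotics.IsBigO.mul_atTop_rpow_natCast_of_isBigO_rpow (-s.re) _ _ ?_ hO ?_).trans_tendsto hlim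
    · exact Asymptotics.isBigO_norm_left.mp <|
        (Complex.norm_ofReal_cpow_eventually_eq_atTop _).isBigO.natCast_atTop
    · linarith
  · refine Asymptotics.IsBigO.mul_atTop_rpow_of_isBigO_rpow (-(s + 1).re) 0 _ ?_ ?_
      (by rw [← Complex.neg_re, neg_add'])
    · simpa [-neg_add_rev, neg_add'] using! isBigO_deriv_ofReal_cpow_const_atTop _
    · exact (hO.comp_tendsto tendsto_nat_floor_atTop).trans <|
        Asymptotics.IsEquivalent.isBigO Asymptotics.isEquivalent_nat_floor |>.rpow le_rfl (eventually_ge_atTop 0)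

/-- the periodic zeta function is the transform of its partial sums -/
theorem ez {a : ℝ} (h1 : ea a 1 ≠ 1) (ha : (a : UnitAddCircle) ≠ 0) {w : ℂ} (hw : 0 < w.re) :
    Tendsto (fun N : ℕ => SN N a w) atTop (𝓝 (HurwitzZeta.expZeta (a : UnitAddCircle) w)) := by
  obtain ⟨A, hAd⟩ : ∃ A : ℝ → ℂ, A = fun y => ∑ k ∈ Finset.Icc 1 ⌊y⌋₊, ea a k := ⟨_, rfl⟩
  have hAb : ∀ y, ‖A y‖ ≤ 2 / ‖ea a 1 - 1‖ := fun y => by
    rw [hAd]
    exact sum_bd h1 _
  have hAm : Measurable A := by
    rw [hAd]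
    exact (measurable_from_nat (f := fun n : ℕ => ∑ k ∈ Finset.Icc 1 n, ea a k)).comp Nat.measurable_floor
  have hgt : ∀ s : ℂ, 1 < s.re → HurwitzZeta.expZeta (a : UnitAddCircle) s = TR A s := by
    intro s hs
    have g1 := HurwitzZeta.LSeriesHasSum_exp a hs
    have g2 := LSeries_eq_mul_integral (fun n : ℕ => Complex.exp (2 * Real.pi * Complex.I * a * n)) (r := 0) le_rfl
      (s := s) (by linarith) g1.LSeriesSummable (by
        refine Asymptotics.IsBigO.of_bound (2 / ‖ea a 1 - 1‖) (Eventually.of_forall fun n => ?_)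
        simp only [Real.rpow_zero, norm_one, mul_one]
        exact sum_bd h1 n)
    rw [← g1.LSeries_eq, g2, TR, hAd]
    congr 1
    refine setIntegral_congr_fun measurableSet_Ioi fun t _ => ?_
    simp only [ea]
    congr 2
    ring
  have hopen : IsOpen {s : ℂ | 0 < s.re} := isOpen_lt continuous_const Complex.continuous_re
  have f1 : AnalyticOnNhd ℂ (HurwitzZeta.expZeta (a : UnitAddCircle)) {s : ℂ | 0 < s.re} :=
    DifferentiableOn.analyticOnNhd (HurwitzZeta.differentiable_expZeta_of_ne_zero ha).differentiableOn hopen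
  have f2 : AnalyticOnNhd ℂ (TR A) {s : ℂ | 0 < s.re} := DifferentiableOn.analyticOnNhd (TR_diff hAm hAb) hopen
  have hz : (2 : ℂ) ∈ {s : ℂ | 0 < s.re} := by simp
  have hev : HurwitzZeta.expZeta (a : UnitAddCircle) =ᶠ[𝓝 2] TR A := by
    have : ∀ᶠ s : ℂ in 𝓝 2, 1 < s.re := (isOpen_lt continuous_const Complex.continuous_re).mem_nhds (by simp)
    filter_upwards [this] with s hs
    exact hgt s hs
  have hU := f1.eqOn_of_preconnected_of_eventuallyEq f2 (convex_halfSpace_re_gt 0).isPreconnected hz hev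
  rw [hU hw]
  -- Abel summation
  obtain ⟨f, hf⟩ : ∃ f : ℕ → ℂ, f = fun n => if n = 0 then 0 else ea a n := ⟨_, rfl⟩
  have hfk : ∀ n, ∑ k ∈ Finset.Icc 1 n, f k = ∑ k ∈ Finset.Icc 1 n, ea a k := by
    intro n
    rw [hf]
    refine Finset.sum_congr rfl fun k hk => ?_
    show (if k = 0 then 0 else ea a k) = ea a k
    rw [if_neg (by have := (Finset.mem_Icc.1 hk).1; omega)]
  have hab := abel (f := f) (by rw [hf]; simp) hw (by
    refine Asymptotics.IsBigO.of_bound (2 / ‖ea a 1 - 1‖) (Eventually.of_forall fun n => ?_)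
    simp only [Real.rpow_zero, norm_one, mul_one]
    rw [hfk]
    exact sum_bd h1 n)
  have e1 : (w * ∫ t in Set.Ioi (1 : ℝ), (∑ k ∈ Finset.Icc 1 ⌊t⌋₊, f k) * (t : ℂ) ^ (-(w + 1))) = TR A w := by
    rw [TR, hAd]
    congr 1
    refine setIntegral_congr_fun measurableSet_Ioi fun t _ => ?_
    simp only []
    rw [hfk]
    congr 2
    ring
  rw [e1] at hab
  refine hab.congr fun N => ?_
  rw [← Finset.insert_Icc_add_one_left_eq_Icc N.zero_le, Finset.sum_insert (by simp), hf]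
  simp only [if_true, mul_zero, zero_add]
  unfold SN
  refine Finset.sum_congr rfl fun k hk => ?_
  rw [if_neg (by have := (Finset.mem_Icc.1 hk).1; omega), mul_comm]
  unfold ea
  push_cast
  rfl

theorem t_EZ : S_EZ := by
  intro a ha0 ha1 w hw
  have ha : (a : UnitAddCircle) ≠ 0 := by
    intro h
    rw [AddCircle.coe_eq_zero_iff] at h
    obtain ⟨n, hn⟩ := h
    simp only [zsmul_eq_mul, mul_one] at hn
    have h1 : (0 : ℝ) < n := by rw [hn]; exact ha0
    have h2 : (n : ℝ) < 1 := by rw [hn]; exact ha1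
    have h3 : (0 : ℤ) < n := by exact_mod_cast h1
    have h4 : n < (1 : ℤ) := by exact_mod_cast h2
    omega
  have h1 : ea a 1 ≠ 1 := by
    intro h
    apply ha
    unfold ea at h
    rw [Complex.exp_eq_one_iff] at h
    obtain ⟨n, hn⟩ := h
    have h2 : (a : ℂ) = n := by
      have hp : (2 * Real.pi * Complex.I : ℂ) ≠ 0 := by simp [Real.pi_ne_zero]
      have : (2 * Real.pi * Complex.I : ℂ) * a = (2 * Real.pi * Complex.I : ℂ) * n := by
        rw [Nat.cast_one, mul_one] at hn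
        rw [hn]
        ring
      exact mul_left_cancel₀ hp this
    have h3 : a = n := by exact_mod_cast h2
    rw [h3]
    exact (AddCircle.coe_eq_zero_iff 1).2 ⟨n, by simp⟩
  exact ez h1 ha hw

end Pool.Agent.J4H4.GS
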